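import Pool.Agent.X328.FP.Stm

/-!
# Project FP, part GL: a critical point of large height
-/

set_option autoImplicit false

namespace Pool.Agent.X186.FP

open Finset Polynomial Pool.Agent.W277.UB Pool.Agent.W277.UH Pool.Agent.X328.FP

universe u v w

section poly

variable {K : Type*} [Field K]

theorem natDegree_AA_le {d : ℕ} (ζ r : Fin (d + 1) → K) : (AA ζ r).natDegree ≤ d := by
  unfold AA
  refine natDegree_sum_le_of_forall_le _ _ fun i _ => ?_
  refine (natDegree_C_mul_le _ _).trans ?_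
  rw [natDegree_prod_of_monic _ _ fun j _ => monic_X_sub_C _]
  simp

theorem natDegree_WW {d : ℕ} (ζ : Fin (d + 1) → K) : (WW ζ).natDegree = d + 1 := by
  unfold WW
  rw [natDegree_prod_of_monic _ _ fun j _ => monic_X_sub_C _]
  simp

theorem natDegree_PP_le {d : ℕ} (ζ r : Fin (d + 1) → K) : (PP ζ r).natDegree ≤ d + 1 := by
  unfold PP
  refine (natDegree_sub_le _ _).trans (max_le ?_ (natDegree_WW ζ).le)
  refine natDegree_mul_le.trans ?_
  have h1 : (X : K[X]).natDegree ≤ 1 := natDegree_X_le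
  have h2 := natDegree_AA_le ζ r
  omega

theorem natDegree_wr_le {d : ℕ} (hd : 1 ≤ d) (ζ r : Fin (d + 1) → K) :
    (wr (PP ζ r) (AA ζ r)).natDegree ≤ 2 * d := by
  unfold wr
  have h1 := natDegree_AA_le ζ r
  have h2 := natDegree_PP_le ζ r
  have h3 := natDegree_derivative_le (PP ζ r)
  have h4 := natDegree_derivative_le (AA ζ r)
  refine (natDegree_sub_le _ _).trans (max_le ?_ ?_)
  · refine natDegree_mul_le.trans ?_
    omega
  · refine natDegree_mul_le.trans ?_
    omega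

/-- the value of `WW'` at `ζ i` -/
theorem eval_derivative_WW {D : ℕ} (ζ : Fin D → K) (i : Fin D) :
    (derivative (WW ζ)).eval (ζ i) = ∏ j ∈ univ.erase i, (ζ i - ζ j) := by
  unfold WW
  rw [derivative_prod_finset, eval_finsetSum, Finset.sum_eq_single i]
  · simp [eval_prod]
  · intro j _ hj
    rw [derivative_X_sub_C, mul_one, eval_prod]
    exact Finset.prod_eq_zero (Finset.mem_erase.2 ⟨Ne.symm hj, mem_univ i⟩) (by simp)
  · intro h
    exact absurd (mem_univ i) h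

theorem eval_AA {D : ℕ} (ζ r : Fin D → K) (i : Fin D) :
    (AA ζ r).eval (ζ i) = r i * ∏ j ∈ univ.erase i, (ζ i - ζ j) := by
  unfold AA
  rw [eval_finsetSum, Finset.sum_eq_single i]
  · simp [eval_prod]
  · intro j _ hj
    rw [eval_mul, eval_prod]
    rw [Finset.prod_eq_zero (Finset.mem_erase.2 ⟨Ne.symm hj, mem_univ i⟩) (by simp), mul_zero]
  · intro h
    exact absurd (mem_univ i) h

theorem eval_WW {D : ℕ} (ζ : Fin D → K) (i : Fin D) : (WW ζ).eval (ζ i) = 0 := by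
  unfold WW
  rw [eval_prod]
  exact Finset.prod_eq_zero (mem_univ i) (by simp)

theorem eval_wr {D : ℕ} (ζ r : Fin D → K) (i : Fin D) :
    (wr (PP ζ r) (AA ζ r)).eval (ζ i) =
      r i * (r i - 1) * (∏ j ∈ univ.erase i, (ζ i - ζ j)) ^ 2 := by
  unfold wr PP
  simp only [eval_sub, eval_mul, eval_X, derivative_sub, derivative_mul, derivative_X, one_mul,
    eval_add, eval_derivative_WW, eval_WW, eval_AA]
  ring

theorem wr_ne_zero {D : ℕ} (ζ r : Fin D → K) (hζ : Function.Injective ζ) (i : Fin D)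
    (h0 : r i ≠ 0) (h1 : r i ≠ 1) : wr (PP ζ r) (AA ζ r) ≠ 0 := by
  intro h
  have h2 := eval_wr ζ r i
  rw [h, eval_zero] at h2
  refine mul_ne_zero (mul_ne_zero h0 (sub_ne_zero.2 h1)) (pow_ne_zero 2 ?_) h2.symm
  rw [Finset.prod_ne_zero_iff]
  intro j hj
  exact sub_ne_zero.2 fun h => (Finset.mem_erase.1 hj).1 (hζ h).symm

end poly

theorem t_GL (hLOC : S_LOC.{u, v, w}) (hHQ : S_HQ.{u, v, w}) (hZA : S_ZA.{u, v, w})
    (hSTEP : S_STEP.{u, v, w}) : S_GL.{u, v, w} := by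
  classical
  intro k K _ _ _ _ Q d hd z hz ζ hζ r hr hr1 hH hspl hwr
  obtain ⟨-, -, -, hQsub, hQlow, -⟩ := hHQ k K Q
  obtain ⟨i, Z, hri, hZ, hHZ⟩ := hZA k K Q d hd r hr hH
  set H : ℤ := ∑ j, hQ Q (r j) with hHdef
  set f := vl (PP ζ r) (AA ζ r) with hf
  have hinj : Function.Injective ζ := by
    intro a b hab
    rw [hζ, hζ] at hab
    exact hz ((algebraMap k K).injective hab)
  have hw0 := wr_ne_zero ζ r hinj i (hr i) hri
  have hloc : ∀ v : Q.Pl, ∃ c : K, v ∈ Z → (wr (PP ζ r) (AA ζ r)).eval c = 0 ∧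
      ∀ m : ℕ, (AA ζ r).eval (f^[m] c) ≠ 0 ∧ f^[m + 1] c ≠ ζ i ∧
        ((m : ℤ) + 1) * Q.ord v (r i - 1) ≤ Q.ord v (f^[m + 1] c - ζ i) := by
    intro v
    by_cases hv : v ∈ Z
    · obtain ⟨c, h1, h2⟩ := hLOC k K Q v d hd z hz ζ hζ r hr hr1 i hri (hZ v hv).1 (hZ v hv).2
        (hspl i) hwr
      exact ⟨c, fun _ => ⟨h1, h2⟩⟩
    · exact ⟨0, fun h => absurd h hv⟩
  choose c hc using hloc
  -- the critical points
  set R : Finset K := (wr (PP ζ r) (AA ζ r)).roots.toFinset with hR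
  have hcard : R.card ≤ 2 * d :=
    (Multiset.toFinset_card_le _).trans ((card_roots' _).trans (natDegree_wr_le (by omega) ζ r))
  have hmem : ∀ v ∈ Z, c v ∈ R := by
    intro v hv
    rw [hR, Multiset.mem_toFinset, mem_roots hw0]
    exact (hc v hv).1
  set g : Q.Pl → ℤ := fun v => Q.wt v * Q.ord v (r i - 1) with hg
  have hg0 : ∀ v ∈ Z, 0 ≤ g v := fun v hv => mul_nonneg (Q.wt_nonneg v) (hZ v hv).1.le
  have hfib : ∑ a ∈ R, ∑ v ∈ Z with c v = a, g v = ∑ v ∈ Z, g v :=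
    Finset.sum_fiberwise_of_maps_to hmem g
  have hZpos : 0 < ∑ v ∈ Z, g v := by
    by_contra hcon
    push Not at hcon
    have h3 : 2 * ((d : ℤ) + 1) * ∑ v ∈ Z, g v ≤ 0 :=
      mul_nonpos_of_nonneg_of_nonpos (by positivity) hcon
    exact absurd (hH.trans_le hHZ) (not_lt.2 h3)
  -- pigeonhole
  obtain ⟨a, haR, ha⟩ : ∃ a ∈ R, ∑ v ∈ Z, g v ≤ (R.card : ℤ) * ∑ v ∈ Z with c v = a, g v := by
    by_contra hcon
    push Not at hcon
    have hne : R.Nonempty := by
      rw [Finset.nonempty_iff_ne_empty]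
      intro h
      rw [h, Finset.sum_empty] at hfib
      exact absurd hfib.symm hZpos.ne'
    have h4 : ∑ a ∈ R, (R.card : ℤ) * ∑ v ∈ Z with c v = a, g v <
        ∑ _a ∈ R, ∑ v ∈ Z, g v := Finset.sum_lt_sum_of_nonempty hne hcon
    rw [← Finset.mul_sum, hfib, Finset.sum_const, nsmul_eq_mul] at h4
    exact lt_irrefl _ h4
  set S : ℤ := ∑ v ∈ Z with c v = a, g v with hS
  have hS0 : 0 ≤ S := Finset.sum_nonneg fun v hv => hg0 v (Finset.mem_filter.1 hv).1
  have hSd : ∑ v ∈ Z, g v ≤ 2 * (d : ℤ) * S := by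
    refine ha.trans (mul_le_mul_of_nonneg_right ?_ hS0)
    exact_mod_cast hcard
  have hHS : H ≤ 4 * (d : ℤ) * (d + 1) * S := by
    calc H ≤ 2 * ((d : ℤ) + 1) * ∑ v ∈ Z, g v := hHZ
      _ ≤ 2 * ((d : ℤ) + 1) * (2 * (d : ℤ) * S) :=
        mul_le_mul_of_nonneg_left hSd (by positivity)
      _ = 4 * (d : ℤ) * (d + 1) * S := by ring
  obtain ⟨v₀, hv₀⟩ : (Z.filter fun v => c v = a).Nonempty := by
    rw [Finset.nonempty_iff_ne_empty]
    intro h
    rw [hS, h, Finset.sum_empty, mul_zero] at hSd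
    exact absurd hZpos (not_lt.2 hSd)
  obtain ⟨hv₀Z, hv₀a⟩ := Finset.mem_filter.1 hv₀
  have hA : ∀ m : ℕ, (AA ζ r).eval (f^[m] a) ≠ 0 := by
    intro m
    have := ((hc v₀ hv₀Z).2 m).1
    rwa [hv₀a] at this
  refine ⟨a, ?_, hA, ?_⟩
  · have := (hc v₀ hv₀Z).1
    rwa [hv₀a] at this
  -- the height of the iterate
  set n : ℕ := 8 * d ^ 2 * (d + 1) with hn
  have hn1 : 1 ≤ n := by
    have : 0 < 8 * d ^ 2 * (d + 1) := by positivity
    omega
  have hstart : 2 * (d : ℤ) * H ≤ hQ Q (f^[n] a) := by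
    obtain ⟨n', hn'⟩ : ∃ n', n = n' + 1 := ⟨n - 1, by omega⟩
    have hne : f^[n] a - ζ i ≠ 0 := by
      have := ((hc v₀ hv₀Z).2 n').2.1
      rw [hv₀a, ← hn'] at this
      exact sub_ne_zero.2 this
    have h5 := hQlow (f^[n] a - ζ i) hne (Z.filter fun v => c v = a)
      (fun v => (n : ℤ) * Q.ord v (r i - 1)) (by
        intro v hv
        obtain ⟨hvZ, hva⟩ := Finset.mem_filter.1 hv
        have := ((hc v hvZ).2 n').2.2
        rw [hva, ← hn'] at this
        rw [hn']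
        push_cast
        rw [← hn']
        exact this)
    have h6 : ∑ v ∈ Z with c v = a, Q.wt v * ((n : ℤ) * Q.ord v (r i - 1)) = n * S := by
      rw [hS, Finset.mul_sum]
      refine Finset.sum_congr rfl fun v _ => ?_
      rw [hg]
      ring
    rw [h6] at h5
    have h7 : hQ Q (f^[n] a - ζ i) = hQ Q (f^[n] a) := by
      rw [hζ]
      exact hQsub _ _
    rw [h7] at h5
    calc 2 * (d : ℤ) * H ≤ 2 * (d : ℤ) * (4 * (d : ℤ) * (d + 1) * S) :=
          mul_le_mul_of_nonneg_left hHS (by positivity)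
      _ = n * S := by
          rw [hn]
          push_cast
          ring
      _ ≤ _ := h5
  -- iteration
  have hiter : ∀ m : ℕ, (d : ℤ) ^ m * H + (2 * d - 1) * H ≤ hQ Q (f^[n + m] a) := by
    intro m
    induction m with
    | zero =>
      rw [pow_zero, add_zero]
      linarith
    | succ m ih =>
      have h8 := hSTEP k K Q d hd z hz ζ hζ r hr hr1 (f^[n + m] a) (hA _)
      have h9 : f^[n + (m + 1)] a = vl (PP ζ r) (AA ζ r) (f^[n + m] a) := by
        rw [← add_assoc, Function.iterate_succ_apply']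
      rw [h9]
      refine le_trans ?_ h8
      have hd' : (2 : ℤ) ≤ d := by exact_mod_cast hd
      have h10 : (d : ℤ) * ((d : ℤ) ^ m * H + (2 * d - 1) * H) ≤ d * hQ Q (f^[n + m] a) :=
        mul_le_mul_of_nonneg_left ih (by positivity)
      have h11 : 0 ≤ ((d : ℤ) - 2) * ((2 * d - 1) * H) :=
        mul_nonneg (by linarith) (mul_nonneg (by linarith) hH.le)
      rw [← hHdef, pow_succ]
      nlinarith [h10, h11]
  intro m
  have h12 := hiter m
  have h13 : 0 ≤ (2 * (d : ℤ) - 1) * H :=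
    mul_nonneg (by have : (2 : ℤ) ≤ d := by exact_mod_cast hd
                   linarith) hH.le
  linarith

end Pool.Agent.X186.FP
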