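import Mathlib

/-!
# Piecewise isometries
-/

set_option autoImplicit false

open UpperHalfPlane

namespace Pool.Agent.X186.FP

/-- The bijection `f` of the subset `X` of the hyperbolic plane is a piecewise isometry: there are a
partition of `X` into finitely many pieces `P i` and isometries `g i` of the hyperbolic plane such
that `f = g i` on `P i`. -/
def IsPiecewiseIsometry {X : Set ℍ} (f : Equiv.Perm X) : Prop :=
  ∃ (n : ℕ) (P : Fin n → Set X) (g : Fin n → (ℍ ≃ᵢ ℍ)), (⋃ i, P i) = Set.univ ∧
    Pairwise (fun i j => Disjoint (P i) (P j)) ∧ ∀ i, ∀ x ∈ P i, (f x : ℍ) = g i x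

end Pool.Agent.X186.FP
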