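import Pool.Agent.X186.FP.Main
import Pool.Agent.X186.FP.Defs

/-!
# Absorption of a countable set
-/

set_option autoImplicit false

open Matrix UpperHalfPlane
open scoped MatrixGroups Pointwise

namespace Pool.Agent.X186.FP

/-- the wrapped translation -/
noncomputable def sh (θ : ℝ) (z : ℍ) : ℍ :=
  if z.re + θ < 1 / 10 then θ +ᵥ z else (θ - 1 / 5) +ᵥ z

theorem sh_mem {θ : ℝ} (h0 : 0 < θ) (h1 : θ < 1 / 5) {z : ℍ} (hz : z ∈ RX) : sh θ z ∈ RX := by
  obtain ⟨a, b, c, d⟩ := hz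
  unfold sh
  split_ifs with h
  · refine ⟨?_, ?_, ?_, ?_⟩
    · rw [vadd_re]; linarith
    · rw [vadd_re]; linarith
    · rw [vadd_im]; exact c
    · rw [vadd_im]; exact d
  · refine ⟨?_, ?_, ?_, ?_⟩
    · rw [vadd_re]; linarith
    · rw [vadd_re]; linarith
    · rw [vadd_im]; exact c
    · rw [vadd_im]; exact d

theorem sh_inj {θ : ℝ} {z z' : ℍ} (hz : z ∈ RX) (hz' : z' ∈ RX) (h : sh θ z = sh θ z') :
    z = z' := by
  obtain ⟨a, b, _, _⟩ := hz
  obtain ⟨a', b', _, _⟩ := hz'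
  have hre := congrArg UpperHalfPlane.re h
  have him := congrArg UpperHalfPlane.im h
  unfold sh at hre him
  have key : z.re = z'.re ∧ z.im = z'.im := by
    split_ifs at hre him with h1 h2 h2
    · rw [vadd_re, vadd_re] at hre
      rw [vadd_im, vadd_im] at him
      exact ⟨by linarith, him⟩
    · rw [vadd_re, vadd_re] at hre
      exfalso; linarith
    · rw [vadd_re, vadd_re] at hre
      exfalso; linarith
    · rw [vadd_re, vadd_re] at hre
      rw [vadd_im, vadd_im] at him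
      exact ⟨by linarith, him⟩
  exact UpperHalfPlane.ext (Complex.ext key.1 key.2)

theorem sh_iter (θ : ℝ) (n : ℕ) (z : ℍ) : ∃ k : ℤ, ((sh θ)^[n] z).re = z.re + n * θ - k / 5 := by
  induction n with
  | zero => exact ⟨0, by simp⟩
  | succ n ih =>
    obtain ⟨k, hk⟩ := ih
    rw [Function.iterate_succ_apply']
    set v := (sh θ)^[n] z with hv
    have h2 : sh θ v = θ +ᵥ v ∨ sh θ v = (θ - 1 / 5) +ᵥ v := by
      unfold sh
      split_ifs
      · left; rfl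
      · right; rfl
    rcases h2 with h2 | h2
    · refine ⟨k, ?_⟩
      rw [h2, vadd_re, hk]; push_cast; ring
    · refine ⟨k + 1, ?_⟩
      rw [h2, vadd_re, hk]; push_cast; ring

theorem absorb (D : Set ℍ) (hD : D.Countable) : ∃ (θ : ℝ) (h : RX ≃ {z : ℍ | z ∈ RX ∧ z ∉ D}),
    ∀ z, ((h z : ℍ) = z ∨ (h z : ℍ) = θ +ᵥ (z : ℍ) ∨ (h z : ℍ) = (θ - 1 / 5) +ᵥ (z : ℍ)) := by
  classical
  let B : Set ℝ := ⋃ (n : ℕ), ⋃ (k : ℤ), ⋃ d ∈ D, ⋃ d' ∈ D, {((d' : ℍ).re - (d : ℍ).re + k / 5) / n}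
  have hB : B.Countable := by
    refine Set.countable_iUnion fun n => Set.countable_iUnion fun k => ?_
    refine hD.biUnion fun d _ => ?_
    exact hD.biUnion fun d' _ => Set.countable_singleton _
  have hdense : Dense Bᶜ := hB.dense_compl ℝ
  obtain ⟨θ, hθ, hθB⟩ := hdense.exists_mem_open isOpen_Ioo
    (⟨1 / 10, by norm_num, by norm_num⟩ : (Set.Ioo (0 : ℝ) (1 / 5)).Nonempty)
  obtain ⟨h0, h1⟩ := hθB
  have hav : ∀ n : ℕ, 0 < n → ∀ d ∈ D, ∀ d' ∈ D, (sh θ)^[n] d ≠ d' := by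
    intro n hn d hd d' hd' heq
    obtain ⟨k, hk⟩ := sh_iter θ n d
    rw [heq] at hk
    apply hθ
    simp only [B, Set.mem_iUnion]
    refine ⟨n, k, d, hd, d', hd', ?_⟩
    rw [Set.mem_singleton_iff, eq_div_iff (by exact_mod_cast hn.ne')]
    linarith
  have hmem : ∀ n : ℕ, ∀ z ∈ RX, (sh θ)^[n] z ∈ RX := by
    intro n
    induction n with
    | zero => intro z hz; exact hz
    | succ n ih =>
      intro z hz
      rw [Function.iterate_succ_apply']
      exact sh_mem h0 h1 (ih z hz)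
  let E : Set ℍ := {z | ∃ n : ℕ, ∃ d ∈ D, d ∈ RX ∧ (sh θ)^[n] d = z}
  let hf : ℍ → ℍ := fun z => if z ∈ E then sh θ z else z
  have hE1 : ∀ z ∈ E, sh θ z ∈ E ∧ sh θ z ∉ D := by
    rintro z ⟨n, d, hd, hdX, rfl⟩
    refine ⟨⟨n + 1, d, hd, hdX, Function.iterate_succ_apply' _ _ _⟩, ?_⟩
    intro h
    rw [← Function.iterate_succ_apply' (f := sh θ)] at h
    exact hav (n + 1) (Nat.succ_pos n) d hd _ h rfl
  have hmaps : ∀ z ∈ RX, hf z ∈ RX ∧ hf z ∉ D := by
    intro z hz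
    simp only [hf]
    split_ifs with h
    · exact ⟨sh_mem h0 h1 hz, (hE1 z h).2⟩
    · refine ⟨hz, fun hzD => h ⟨0, z, hzD, hz, rfl⟩⟩
  let H : RX → {z : ℍ | z ∈ RX ∧ z ∉ D} := fun z => ⟨hf z, hmaps z z.2⟩
  have hinj : Function.Injective H := by
    intro z z' hzz
    have h2 : hf z = hf z' := congrArg Subtype.val hzz
    apply Subtype.ext
    simp only [hf] at h2
    split_ifs at h2 with a b b
    · exact sh_inj z.2 z'.2 h2
    · exact absurd (h2 ▸ (hE1 _ a).1) b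
    · exact absurd (h2 ▸ (hE1 _ b).1) a
    · exact h2
  have hsurj : Function.Surjective H := by
    rintro ⟨v, hv, hvD⟩
    by_cases hvE : v ∈ E
    · obtain ⟨n, d, hd, hdX, hn⟩ := hvE
      rcases n with _ | n
      · exact absurd (hn ▸ hd) hvD
      · rw [Function.iterate_succ_apply'] at hn
        refine ⟨⟨(sh θ)^[n] d, hmem n d hdX⟩, ?_⟩
        apply Subtype.ext
        show hf ((sh θ)^[n] d) = v
        simp only [hf]
        rw [if_pos ⟨n, d, hd, hdX, rfl⟩, hn]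
    · refine ⟨⟨v, hv⟩, ?_⟩
      apply Subtype.ext
      show hf v = v
      simp only [hf]
      rw [if_neg hvE]
  refine ⟨θ, Equiv.ofBijective H ⟨hinj, hsurj⟩, ?_⟩
  intro z
  show (hf z = z ∨ hf z = θ +ᵥ (z : ℍ) ∨ hf z = (θ - 1 / 5) +ᵥ (z : ℍ))
  simp only [hf, sh]
  split_ifs
  · right; left; rfl
  · right; right; rfl
  · left; rfl

/-- finitely many isometries suffice -/
def FinIso (V W : Set ℍ) (f : V → W) : Prop :=
  ∃ S : Set (ℍ ≃ᵢ ℍ), S.Finite ∧ ∀ x, ∃ g ∈ S, (f x : ℍ) = g (x : ℍ)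

theorem FinIso.comp {U V W : Set ℍ} {f : U → V} {g : V → W} (hg : FinIso V W g)
    (hf : FinIso U V f) : FinIso U W (g ∘ f) := by
  obtain ⟨S, hS, hS'⟩ := hf
  obtain ⟨T, hT, hT'⟩ := hg
  refine ⟨(fun p : (ℍ ≃ᵢ ℍ) × (ℍ ≃ᵢ ℍ) => p.1.trans p.2) '' (S ×ˢ T), (hS.prod hT).image _, ?_⟩
  intro x
  obtain ⟨a, ha, ha'⟩ := hS' x
  obtain ⟨b, hb, hb'⟩ := hT' (f x)
  refine ⟨a.trans b, ⟨(a, b), ⟨ha, hb⟩, rfl⟩, ?_⟩
  show (g (f x) : ℍ) = b (a (x : ℍ))
  rw [hb', ha']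

theorem FinIso.symm {V W : Set ℍ} {f : V ≃ W} (hf : FinIso V W f) : FinIso W V f.symm := by
  obtain ⟨S, hS, hS'⟩ := hf
  refine ⟨IsometryEquiv.symm '' S, hS.image _, ?_⟩
  intro y
  obtain ⟨g, hg, hg'⟩ := hS' (f.symm y)
  refine ⟨g.symm, ⟨g, hg, rfl⟩, ?_⟩
  rw [Equiv.apply_symm_apply] at hg'
  rw [hg', IsometryEquiv.symm_apply_apply]

theorem FinIso.piecewise {X : Set ℍ} {f : Equiv.Perm X} (hf : FinIso X X f) :
    IsPiecewiseIsometry f := by
  classical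
  obtain ⟨S, hS, hS'⟩ := hf
  have := hS.fintype
  let e := Fintype.equivFin S
  choose g hg hg' using hS'
  refine ⟨Fintype.card S, fun i => {x | e ⟨g x, hg x⟩ = i}, fun i => (e.symm i).1, ?_, ?_, ?_⟩
  · ext x
    simp
  · intro i j hij
    rw [Set.disjoint_left]
    intro x hx hx'
    exact hij (hx.symm.trans hx')
  · rintro i x hx
    have h1 : e ⟨g x, hg x⟩ = i := hx
    rw [← h1]
    show (f x : ℍ) = (e.symm (e ⟨g x, hg x⟩)).1 x
    rw [Equiv.symm_apply_apply]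
    exact hg' x

theorem RX_bounded : Bornology.IsBounded RX := by
  have h1 : IsCompact ((fun z : ℍ => (z : ℂ)) ⁻¹' (Set.Icc (-(1 / 10) : ℝ) (1 / 10) ×ℂ
      Set.Icc (9 / 10 : ℝ) (11 / 10))) := by
    rw [isEmbedding_coe.isInducing.isCompact_preimage_iff]
    · exact isCompact_Icc.reProdIm isCompact_Icc
    · intro w hw
      have hw2 := hw.2
      refine ⟨⟨w, ?_⟩, rfl⟩
      have : (9 / 10 : ℝ) ≤ w.im := hw2.1
      linarith
  refine h1.isBounded.subset ?_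
  rintro z ⟨a, b, c, d⟩
  exact ⟨⟨a, b.le⟩, ⟨c, d⟩⟩

theorem RX_interior : (interior RX).Nonempty := by
  refine ⟨⟨⟨0, 1⟩, by norm_num⟩, ?_⟩
  rw [mem_interior]
  refine ⟨{z : ℍ | -(1 / 10) < z.re ∧ z.re < 1 / 10 ∧ 9 / 10 < z.im ∧ z.im < 11 / 10}, ?_, ?_, ?_⟩
  · rintro z ⟨a, b, c, d⟩
    exact ⟨a.le, b, c.le, d.le⟩
  · have hre : Continuous (fun z : ℍ => z.re) := Complex.continuous_re.comp continuous_coe
    have him : Continuous (fun z : ℍ => z.im) := Complex.continuous_im.comp continuous_coe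
    exact (isOpen_lt continuous_const hre).inter ((isOpen_lt hre continuous_const).inter
      ((isOpen_lt continuous_const him).inter (isOpen_lt him continuous_const)))
  · refine ⟨?_, ?_, ?_, ?_⟩
    · show -(1 / 10 : ℝ) < 0
      norm_num
    · show (0 : ℝ) < 1 / 10
      norm_num
    · show (9 / 10 : ℝ) < 1
      norm_num
    · show (1 : ℝ) < 11 / 10
      norm_num

/-- **A fixed point free action of the free group by piecewise isometries of a bounded set.** -/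
theorem main : ∃ X : Set ℍ, Bornology.IsBounded X ∧ (interior X).Nonempty ∧
    ∃ φ ψ : Equiv.Perm X, IsPiecewiseIsometry φ ∧ IsPiecewiseIsometry ψ ∧
      Function.Injective (FreeGroup.lift ![φ, ψ]) ∧
      ∀ g ∈ Subgroup.closure {φ, ψ}, (∃ x, g x = x) → g = 1 := by
  obtain ⟨D, x, P, hD, hP, hfree⟩ := exists_perms
  obtain ⟨θ, h, hh⟩ := absorb D hD
  have hhF : FinIso RX {z : ℍ | z ∈ RX ∧ z ∉ D} h := by
    refine ⟨{IsometryEquiv.refl ℍ, IsometryEquiv.mk (AddAction.toPerm θ) (isometry_real_vadd θ),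
      IsometryEquiv.mk (AddAction.toPerm (θ - 1 / 5)) (isometry_real_vadd (θ - 1 / 5))},
      by simp, ?_⟩
    intro z
    rcases hh z with h1 | h1 | h1
    · exact ⟨_, Or.inl rfl, h1⟩
    · exact ⟨_, Or.inr (Or.inl rfl), h1⟩
    · exact ⟨_, Or.inr (Or.inr rfl), h1⟩
  have hPF : ∀ k, FinIso {z : ℍ | z ∈ RX ∧ z ∉ D} {z : ℍ | z ∈ RX ∧ z ∉ D} (P k) := by
    intro k
    refine ⟨Set.range (fun j => (IsometryEquiv.constSMul (PE (1 / 200) (x j)) : ℍ ≃ᵢ ℍ)),
      Set.finite_range _, ?_⟩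
    intro z
    obtain ⟨j, hj⟩ := hP k z
    exact ⟨_, ⟨j, rfl⟩, hj⟩
  let Φ : Equiv.Perm {z : ℍ | z ∈ RX ∧ z ∉ D} ≃* Equiv.Perm RX := h.symm.permCongrHom
  have hΦ : ∀ f z, Φ f z = h.symm (f (h z)) := fun f z => rfl
  let Q : Fin 2 → Equiv.Perm RX := fun k => Φ (P k)
  have hQF : ∀ k, IsPiecewiseIsometry (Q k) := by
    intro k
    apply FinIso.piecewise
    exact (hhF.symm).comp ((hPF k).comp hhF)
  have hlift : ∀ w, FreeGroup.lift Q w = Φ (FreeGroup.lift P w) := by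
    intro w
    have : FreeGroup.lift Q = (Φ : _ →* _).comp (FreeGroup.lift P) := by
      apply FreeGroup.ext_hom
      intro k
      simp [Q]
    rw [this]
    rfl
  have hQfree : ∀ w, w ≠ 1 → ∀ z, (FreeGroup.lift Q w) z ≠ z := by
    intro w hw z hz
    rw [hlift, hΦ] at hz
    apply hfree w hw (h z)
    rw [Equiv.symm_apply_eq] at hz
    exact hz
  have hQ2 : (![Q 0, Q 1] : Fin 2 → Equiv.Perm RX) = Q := by
    funext k
    fin_cases k <;> rfl
  refine ⟨RX, RX_bounded, RX_interior, Q 0, Q 1, hQF 0, hQF 1, ?_, ?_⟩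
  · rw [hQ2, injective_iff_map_eq_one]
    intro w hw
    by_contra hne
    obtain ⟨z0, hz0⟩ := RX_interior
    exact hQfree w hne ⟨z0, interior_subset hz0⟩ (by rw [hw]; rfl)
  · rintro g hg ⟨z, hz⟩
    have h1 : Subgroup.closure {Q 0, Q 1} ≤ (FreeGroup.lift Q).range := by
      rw [Subgroup.closure_le]
      rintro _ (rfl | rfl)
      · exact ⟨FreeGroup.of 0, by simp⟩
      · exact ⟨FreeGroup.of 1, by simp⟩
    obtain ⟨w, rfl⟩ := h1 hg
    by_contra hne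
    have hw : w ≠ 1 := by
      rintro rfl
      exact hne (map_one _)
    exact hQfree w hw z hz

end Pool.Agent.X186.FP
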