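import Pool.Agent.X186.FP.Group

/-!
# The rectangle
-/

set_option autoImplicit false

open Matrix UpperHalfPlane
open scoped MatrixGroups Pointwise

namespace Pool.Agent.X186.FP

/-- the rectangle -/
def RX : Set ℍ := {z | -(1 / 10) ≤ z.re ∧ z.re < 1 / 10 ∧ 9 / 10 ≤ z.im ∧ z.im ≤ 11 / 10}

theorem PE_coords (e x : ℝ) (z : ℍ) :
    ((1 + e * (z.re - x)) ^ 2 + e ^ 2 * z.im ^ 2) ≠ 0 ∧
    (PE e x • z).re = z.re - e * (((z.re - x) ^ 2 - z.im ^ 2) +
      e * ((z.re - x) ^ 2 + z.im ^ 2) * (z.re - x)) /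
        ((1 + e * (z.re - x)) ^ 2 + e ^ 2 * z.im ^ 2) ∧
    (PE e x • z).im = z.im - e * (2 * (z.re - x) * z.im +
      e * ((z.re - x) ^ 2 + z.im ^ 2) * z.im) /
        ((1 + e * (z.re - x)) ^ 2 + e ^ 2 * z.im ^ 2) := by
  have hd := denom_ne e x z
  have h := coe_PE e x z
  rw [eq_div_iff hd] at h
  have hb : 0 < z.im := z.im_pos
  have hN : 0 < ((1 + e * (z.re - x)) ^ 2 + e ^ 2 * z.im ^ 2) := by
    by_cases he : e = 0
    · subst he; norm_num
    · positivity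
  have hre := congrArg Complex.re h
  have him := congrArg Complex.im h
  simp only [Complex.mul_re, Complex.mul_im, Complex.add_re, Complex.add_im, Complex.sub_re,
    Complex.sub_im, Complex.ofReal_re, Complex.ofReal_im, Complex.one_re, Complex.one_im,
    pow_two, zero_mul, mul_zero, sub_zero, add_zero, zero_add] at hre him
  have e1 : ((PE e x • z : ℍ) : ℂ).re = (PE e x • z).re := rfl
  have e2 : ((PE e x • z : ℍ) : ℂ).im = (PE e x • z).im := rfl
  have e3 : (z : ℂ).re = z.re := rfl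
  have e4 : (z : ℂ).im = z.im := rfl
  rw [e1, e2, e3, e4] at hre him
  set X := (PE e x • z).re
  set Y := (PE e x • z).im
  set u := z.re
  set b := z.im
  refine ⟨hN.ne', ?_, ?_⟩
  · rw [eq_sub_iff_add_eq, ← eq_sub_iff_add_eq', div_eq_iff hN.ne']
    linear_combination (1 + e * (u - x)) * hre + (e * b) * him
  · rw [eq_sub_iff_add_eq, ← eq_sub_iff_add_eq', div_eq_iff hN.ne']
    linear_combination (-(e * b)) * hre + (1 + e * (u - x)) * him

/-- moving into the rectangle -/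
theorem step {e x : ℝ} {z : ℍ} (hz : z ∈ RX) (he : |e| ≤ 1 / 200) (hx : |z.re - x| ≤ 251 / 100)
    (s t : ℝ) (hs : (s = 1 ∧ z.re < 0) ∨ (s = -1 ∧ 0 ≤ z.re))
    (ht : (t = 1 ∧ z.im < 1) ∨ (t = -1 ∧ 1 ≤ z.im))
    (h1 : 0 ≤ s * (-(e * (((z.re - x) ^ 2 - z.im ^ 2) +
      e * ((z.re - x) ^ 2 + z.im ^ 2) * (z.re - x)))))
    (h2 : 0 ≤ t * (-(e * (2 * (z.re - x) * z.im +
      e * ((z.re - x) ^ 2 + z.im ^ 2) * z.im)))) :
    PE e x • z ∈ RX := by
  obtain ⟨z1, z2, z3, z4⟩ := hz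
  obtain ⟨hN0, hre, him⟩ := PE_coords e x z
  set a := z.re - x with ha
  set b := z.im with hb
  set N := (1 + e * a) ^ 2 + e ^ 2 * b ^ 2 with hN
  set P := (a ^ 2 - b ^ 2) + e * (a ^ 2 + b ^ 2) * a with hP
  set Q := 2 * a * b + e * (a ^ 2 + b ^ 2) * b with hQ
  have ae := abs_le.mp he
  have aa := abs_le.mp hx
  have hea : |e * a| ≤ 1 / 50 := by
    rw [abs_mul]
    calc |e| * |a| ≤ 1 / 200 * (251 / 100) := mul_le_mul he hx (abs_nonneg a) (by norm_num)
      _ ≤ 1 / 50 := by norm_num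
  have hea' := abs_le.mp hea
  have hNge : 1 / 2 ≤ N := by
    have h3 : (49 / 50 : ℝ) ^ 2 ≤ (1 + e * a) ^ 2 :=
      pow_le_pow_left₀ (by norm_num) (by linarith) 2
    have h4 : 0 ≤ e ^ 2 * b ^ 2 := by positivity
    rw [hN]
    linarith
  have ha2 : a ^ 2 ≤ 631 / 100 := by
    rw [← sq_abs]
    calc |a| ^ 2 ≤ (251 / 100) ^ 2 := pow_le_pow_left₀ (abs_nonneg a) hx 2
      _ ≤ 631 / 100 := by norm_num
  have hb2 : b ^ 2 ≤ 121 / 100 := by
    calc b ^ 2 ≤ (11 / 10) ^ 2 := pow_le_pow_left₀ (by linarith) z4 2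
      _ ≤ 121 / 100 := by norm_num
  have hb2' : 81 / 100 ≤ b ^ 2 := by
    calc (81 / 100 : ℝ) = (9 / 10) ^ 2 := by norm_num
      _ ≤ b ^ 2 := pow_le_pow_left₀ (by norm_num) z3 2
  have hab : a ^ 2 + b ^ 2 ≤ 752 / 100 := by linarith
  have hPb : |P| ≤ 8 := by
    have h3 : |e * (a ^ 2 + b ^ 2) * a| ≤ 1 := by
      rw [show e * (a ^ 2 + b ^ 2) * a = (e * a) * (a ^ 2 + b ^ 2) by ring, abs_mul,
        abs_of_nonneg (by positivity : 0 ≤ a ^ 2 + b ^ 2)]
      calc |e * a| * (a ^ 2 + b ^ 2) ≤ 1 / 50 * (752 / 100) :=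
            mul_le_mul hea hab (by positivity) (by norm_num)
        _ ≤ 1 := by norm_num
    have h4 := abs_le.mp h3
    rw [abs_le]
    constructor
    · rw [hP]; have := sq_nonneg a; linarith
    · rw [hP]; linarith
  have hQb : |Q| ≤ 8 := by
    have h3 : |e * (a ^ 2 + b ^ 2) * b| ≤ 1 := by
      rw [abs_mul, abs_mul, abs_of_nonneg (by positivity : 0 ≤ a ^ 2 + b ^ 2),
        abs_of_pos (by linarith : 0 < b)]
      have h5 : |e| * (a ^ 2 + b ^ 2) ≤ 1 / 200 * (752 / 100) := by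
        gcongr
      calc |e| * (a ^ 2 + b ^ 2) * b ≤ 1 / 200 * (752 / 100) * (11 / 10) :=
            mul_le_mul h5 z4 (by linarith) (by norm_num)
        _ ≤ 1 := by norm_num
    have h4 := abs_le.mp h3
    have h6 : |2 * a * b| ≤ 6 := by
      rw [abs_mul, abs_mul, abs_of_pos (by linarith : 0 < b), abs_two]
      calc 2 * |a| * b ≤ 2 * (251 / 100) * (11 / 10) :=
            mul_le_mul (by linarith) z4 (by linarith) (by norm_num)
        _ ≤ 6 := by norm_num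
    have h7 := abs_le.mp h6
    rw [abs_le]
    constructor
    · rw [hQ]; linarith
    · rw [hQ]; linarith
  have bound : ∀ R : ℝ, |R| ≤ 8 → |-(e * R)| ≤ 8 / 200 := by
    intro R hR
    rw [abs_neg, abs_mul]
    calc |e| * |R| ≤ 1 / 200 * 8 := mul_le_mul he hR (abs_nonneg R) (by norm_num)
      _ = 8 / 200 := by norm_num
  have hNpos : 0 < N := by linarith
  have dRe : |(-(e * P)) / N| ≤ 8 / 100 := by
    rw [abs_div, abs_of_pos hNpos, div_le_iff₀ hNpos]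
    have := bound P hPb
    linarith
  have dIm : |(-(e * Q)) / N| ≤ 8 / 100 := by
    rw [abs_div, abs_of_pos hNpos, div_le_iff₀ hNpos]
    have := bound Q hQb
    linarith
  have hre' : (PE e x • z).re = z.re + (-(e * P)) / N := by
    rw [hre]; ring
  have him' : (PE e x • z).im = b + (-(e * Q)) / N := by
    rw [him]; ring
  have r1 := abs_le.mp dRe
  have r2 := abs_le.mp dIm
  have q1 : z.re < 0 ∧ 0 ≤ (-(e * P)) / N ∨ 0 ≤ z.re ∧ (-(e * P)) / N ≤ 0 := by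
    rcases hs with ⟨rfl, h⟩ | ⟨rfl, h⟩
    · left
      refine ⟨h, div_nonneg (by linarith) hNpos.le⟩
    · right
      refine ⟨h, div_nonpos_of_nonpos_of_nonneg (by linarith) hNpos.le⟩
  have q2 : b < 1 ∧ 0 ≤ (-(e * Q)) / N ∨ 1 ≤ b ∧ (-(e * Q)) / N ≤ 0 := by
    rcases ht with ⟨rfl, h⟩ | ⟨rfl, h⟩
    · left
      refine ⟨h, div_nonneg (by linarith) hNpos.le⟩
    · right
      refine ⟨h, div_nonpos_of_nonpos_of_nonneg (by linarith) hNpos.le⟩
  refine ⟨?_, ?_, ?_, ?_⟩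
  · rw [hre']
    rcases q1 with ⟨h, h'⟩ | ⟨h, h'⟩ <;> linarith
  · rw [hre']
    rcases q1 with ⟨h, h'⟩ | ⟨h, h'⟩ <;> linarith
  · rw [him']
    rcases q2 with ⟨h, h'⟩ | ⟨h, h'⟩ <;> linarith
  · rw [him']
    rcases q2 with ⟨h, h'⟩ | ⟨h, h'⟩ <;> linarith

/-- centres of the four types -/
noncomputable def cen : Fin 4 → ℝ := ![2 / 5, -(2 / 5), 12 / 5, -(12 / 5)]

/-- the signs of the displacement -/
theorem signs {e x : ℝ} {z : ℍ} (hz : z ∈ RX) (he : |e| ≤ 1 / 200) (k : Fin 4)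
    (hx : |x - cen k| ≤ 1 / 100) :
    |z.re - x| ≤ 251 / 100 ∧
    0 ≤ (![1, 1, -1, -1] : Fin 4 → ℝ) k * (-(((z.re - x) ^ 2 - z.im ^ 2) +
      e * ((z.re - x) ^ 2 + z.im ^ 2) * (z.re - x))) ∧
    0 ≤ (![1, -1, 1, -1] : Fin 4 → ℝ) k * (-(2 * (z.re - x) * z.im +
      e * ((z.re - x) ^ 2 + z.im ^ 2) * z.im)) := by
  obtain ⟨z1, z2, z3, z4⟩ := hz
  have ae := abs_le.mp he
  have hx' := abs_le.mp hx
  set b := z.im with hb
  have hb2 : b ^ 2 ≤ 121 / 100 := by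
    calc b ^ 2 ≤ (11 / 10) ^ 2 := pow_le_pow_left₀ (by linarith) z4 2
      _ ≤ 121 / 100 := by norm_num
  have hb2' : 81 / 100 ≤ b ^ 2 := by
    calc (81 / 100 : ℝ) = (9 / 10) ^ 2 := by norm_num
      _ ≤ b ^ 2 := pow_le_pow_left₀ (by norm_num) z3 2
  have key : ∀ lo hi : ℝ, lo ≤ z.re - x → z.re - x ≤ hi → |lo| ≤ 251 / 100 → |hi| ≤ 251 / 100 →
      |z.re - x| ≤ 251 / 100 ∧ |e * ((z.re - x) ^ 2 + b ^ 2) * (z.re - x)| ≤ 1 / 10 ∧
      |e * ((z.re - x) ^ 2 + b ^ 2)| ≤ 1 / 20 := by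
    intro lo hi h1 h2 h3 h4
    have h3' := abs_le.mp h3
    have h4' := abs_le.mp h4
    have h5 : |z.re - x| ≤ 251 / 100 := abs_le.mpr ⟨by linarith, by linarith⟩
    have h6 : (z.re - x) ^ 2 ≤ 6301 / 1000 := by
      rw [← sq_abs]
      calc |z.re - x| ^ 2 ≤ (251 / 100) ^ 2 := pow_le_pow_left₀ (abs_nonneg _) h5 2
        _ ≤ 6301 / 1000 := by norm_num
    have h7 : |e * ((z.re - x) ^ 2 + b ^ 2)| ≤ 38 / 1000 := by
      rw [abs_mul, abs_of_nonneg (by positivity : 0 ≤ (z.re - x) ^ 2 + b ^ 2)]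
      calc |e| * ((z.re - x) ^ 2 + b ^ 2) ≤ 1 / 200 * (6301 / 1000 + 121 / 100) := by gcongr
        _ ≤ 38 / 1000 := by norm_num
    refine ⟨h5, ?_, h7.trans (by norm_num)⟩
    rw [abs_mul]
    calc |e * ((z.re - x) ^ 2 + b ^ 2)| * |z.re - x| ≤ 38 / 1000 * (251 / 100) :=
          mul_le_mul h7 h5 (abs_nonneg _) (by norm_num)
      _ ≤ 1 / 10 := by norm_num
  fin_cases k
  · simp only [cen, Fin.zero_eta, Matrix.cons_val_zero] at hx' ⊢
    obtain ⟨k1, k2, k3⟩ := key (-(51 / 100)) (-(29 / 100)) (by linarith) (by linarith)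
      (by norm_num [abs_le]) (by norm_num [abs_le])
    have k2' := abs_le.mp k2
    have k3' := abs_le.mp k3
    refine ⟨k1, ?_, ?_⟩
    · nlinarith
    · have : 0 ≤ b * (-2 * (z.re - x) - e * ((z.re - x) ^ 2 + b ^ 2)) := by
        apply mul_nonneg (by linarith)
        linarith
      linarith
  · simp only [cen, Fin.mk_one, Matrix.cons_val_one, Matrix.cons_val_zero] at hx' ⊢
    obtain ⟨k1, k2, k3⟩ := key (29 / 100) (51 / 100) (by linarith) (by linarith)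
      (by norm_num [abs_le]) (by norm_num [abs_le])
    have k2' := abs_le.mp k2
    have k3' := abs_le.mp k3
    refine ⟨k1, ?_, ?_⟩
    · nlinarith
    · have : 0 ≤ b * (2 * (z.re - x) + e * ((z.re - x) ^ 2 + b ^ 2)) := by
        apply mul_nonneg (by linarith)
        linarith
      linarith
  · simp only [cen, Fin.reduceFinMk, Matrix.cons_val] at hx' ⊢
    obtain ⟨k1, k2, k3⟩ := key (-(251 / 100)) (-(229 / 100)) (by linarith) (by linarith)
      (by norm_num [abs_le]) (by norm_num [abs_le])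
    have k2' := abs_le.mp k2
    have k3' := abs_le.mp k3
    refine ⟨k1, ?_, ?_⟩
    · nlinarith
    · have : 0 ≤ b * (-2 * (z.re - x) - e * ((z.re - x) ^ 2 + b ^ 2)) := by
        apply mul_nonneg (by linarith)
        linarith
      linarith
  · simp only [cen, Fin.reduceFinMk, Matrix.cons_val] at hx' ⊢
    obtain ⟨k1, k2, k3⟩ := key (229 / 100) (251 / 100) (by linarith) (by linarith)
      (by norm_num [abs_le]) (by norm_num [abs_le])
    have k2' := abs_le.mp k2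
    have k3' := abs_le.mp k3
    refine ⟨k1, ?_, ?_⟩
    · nlinarith
    · have : 0 ≤ b * (2 * (z.re - x) + e * ((z.re - x) ^ 2 + b ^ 2)) := by
        apply mul_nonneg (by linarith)
        linarith
      linarith

end Pool.Agent.X186.FP
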