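import Pool.Agent.X186.HC.Free

/-!
# Free groups generated by small parabolic elements
-/

set_option autoImplicit false

open Matrix UpperHalfPlane Cardinal
open scoped MatrixGroups Pointwise

namespace Pool.Agent.X186.FP

open Pool.Agent.X186.HC

/-- the parabolic matrix with fixed point `x` and strength `e` -/
def PE {R : Type*} [CommRing R] (e x : R) : SL(2, R) :=
  ⟨!![1 + e * x, -(e * x ^ 2); e, 1 - e * x], by rw [Matrix.det_fin_two_of]; ring⟩

theorem map_PE {R S : Type*} [CommRing R] [CommRing S] (f : R →+* S) (e x : R) :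
    Matrix.SpecialLinearGroup.map f (PE e x) = PE (f e) (f x) := by
  ext i j
  fin_cases i <;> fin_cases j
  · show f (1 + e * x) = 1 + f e * f x
    simp
  · show f (-(e * x ^ 2)) = -(f e * (f x) ^ 2)
    simp
  · rfl
  · show f (1 - e * x) = 1 - f e * f x
    simp

theorem PE_inv {R : Type*} [CommRing R] (e x : R) : (PE e x)⁻¹ = PE (-e) x := by
  rw [inv_eq_iff_mul_eq_one]
  apply Subtype.ext
  rw [Matrix.SpecialLinearGroup.coe_mul]
  ext i j
  rw [Matrix.mul_apply, Fin.sum_univ_two]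
  fin_cases i <;> fin_cases j
  · show (1 + e * x) * (1 + -e * x) + -(e * x ^ 2) * (-e) = 1
    ring
  · show (1 + e * x) * (-(-e * x ^ 2)) + -(e * x ^ 2) * (1 - -e * x) = 0
    ring
  · show e * (1 + -e * x) + (1 - e * x) * (-e) = 0
    ring
  · show e * (-(-e * x ^ 2)) + (1 - e * x) * (1 - -e * x) = 1
    ring

theorem denom_ne (e x : ℝ) (z : ℍ) : (e : ℂ) * z + (1 - e * x) ≠ 0 := by
  intro h
  have h1 := congrArg Complex.im h
  have h2 := congrArg Complex.re h
  simp at h1 h2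
  rcases h1 with h1 | h1
  · rw [h1] at h2
    simp at h2
  · exact z.im_pos.ne' h1

theorem coe_PE (e x : ℝ) (z : ℍ) : ((PE e x • z : ℍ) : ℂ) =
    ((1 + e * x) * z - e * x ^ 2) / (e * z + (1 - e * x)) := by
  rw [coe_specialLinearGroup_apply]
  simp [PE]
  ring_nf

theorem ze_PE (e x : ℝ) (z : ℍ) : ze x (PE e x • z) = ze x z + e := by
  have hz := sub_ne x z
  have hd := denom_ne e x z
  unfold ze
  rw [coe_PE]
  have h2 : ((1 + e * x) * (z : ℂ) - e * x ^ 2) / (e * z + (1 - e * x)) - x =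
      (z - x) / (e * z + (1 - e * x)) := by
    field_simp
    ring
  rw [h2]
  field_simp
  ring

theorem norm_le_of_ze' {e x : ℝ} (he : 0 < e) {z : ℍ} (h : e / 2 ≤ |(ze x z).re|) :
    ‖(z : ℂ) - x‖ ≤ 2 / e := by
  have h1 : e / 2 ≤ ‖ze x z‖ := h.trans (Complex.abs_re_le_norm _)
  unfold ze at h1
  rw [norm_inv] at h1
  have h2 : 0 < ‖(z : ℂ) - x‖ := norm_pos_iff.mpr (sub_ne x z)
  rw [le_inv_comm₀ (by positivity) h2] at h1
  rwa [inv_div] at h1

theorem far' {e : ℝ} (he : 0 < e) (i j : ℕ) (z : ℍ) (h1 : e / 2 ≤ |(ze (5 / e * i) z).re|)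
    (h2 : e / 2 ≤ |(ze (5 / e * j) z).re|) (hij : i ≠ j) : False := by
  have a1 := norm_le_of_ze' he h1
  have a2 := norm_le_of_ze' he h2
  have h3 : ‖(((5 / e * j : ℝ) : ℂ) - ((5 / e * i : ℝ) : ℂ))‖ ≤ 4 / e := by
    have h4 : (((5 / e * j : ℝ) : ℂ) - ((5 / e * i : ℝ) : ℂ)) =
        ((z : ℂ) - ((5 / e * i : ℝ) : ℂ)) - ((z : ℂ) - ((5 / e * j : ℝ) : ℂ)) := by ring
    rw [h4]
    refine (norm_sub_le _ _).trans ?_
    have : 4 / e = 2 / e + 2 / e := by ring
    linarith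
  rw [← Complex.ofReal_sub, Complex.norm_real, Real.norm_eq_abs] at h3
  have h5 : |(5 / e * j : ℝ) - 5 / e * i| = 5 / e * |((j : ℤ) - (i : ℤ) : ℤ)| := by
    push_cast
    rw [← mul_sub, abs_mul, abs_of_pos (by positivity : (0 : ℝ) < 5 / e)]
  rw [h5] at h3
  have h6 : (1 : ℤ) ≤ |(j : ℤ) - (i : ℤ)| := by
    apply Int.one_le_abs
    omega
  have h7 : (1 : ℝ) ≤ ((|(j : ℤ) - (i : ℤ)| : ℤ) : ℝ) := by exact_mod_cast h6
  have h8 : 5 / e * 1 ≤ 5 / e * ((|(j : ℤ) - (i : ℤ)| : ℤ) : ℝ) := by gcongr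
  have h9 : 4 / e < 5 / e := by gcongr; norm_num
  linarith

theorem ping_pong' {e : ℝ} (he : 0 < e) : Function.Injective
    (FreeGroup.lift (fun n : ℕ => (PE e (5 / e * n : ℝ) : SL(2, ℝ)))) := by
  refine FreeGroup.injective_lift_of_ping_pong (fun n : ℕ => (PE e (5 / e * n : ℝ) : SL(2, ℝ)))
    (fun n => {z : ℍ | e / 2 ≤ (ze (5 / e * n) z).re})
    (fun n => {z : ℍ | (ze (5 / e * n) z).re ≤ -(e / 2)})
    ?_ ?_ ?_ ?_ ?_ ?_
  · intro n
    refine ⟨⟨⟨5 / e * n + 1 / (2 * e), 1 / (2 * e)⟩, by positivity⟩, ?_⟩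
    show e / 2 ≤ (ze (5 / e * n) _).re
    unfold ze
    have h : (((⟨⟨5 / e * n + 1 / (2 * e), 1 / (2 * e)⟩, by positivity⟩ : ℍ) : ℂ) -
        ((5 / e * n : ℝ) : ℂ)) = ⟨1 / (2 * e), 1 / (2 * e)⟩ := by
      apply Complex.ext <;> simp
    rw [h, Complex.inv_re]
    simp only [Complex.normSq_mk]
    have h2 : 1 / (2 * e) / (1 / (2 * e) * (1 / (2 * e)) + 1 / (2 * e) * (1 / (2 * e))) = e := by
      field_simp
      norm_num
    rw [h2]
    linarith
  · intro i j hij
    rw [Function.onFun, Set.disjoint_left]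
    intro z hz hz'
    have h1 : e / 2 ≤ |(ze (5 / e * i) z).re| := le_trans hz (le_abs_self _)
    have h2 : e / 2 ≤ |(ze (5 / e * j) z).re| := le_trans hz' (le_abs_self _)
    exact far' he i j z h1 h2 hij
  · intro i j hij
    rw [Function.onFun, Set.disjoint_left]
    intro z hz hz'
    have hz1 : (ze (5 / e * i) z).re ≤ -(e / 2) := hz
    have hz2 : (ze (5 / e * j) z).re ≤ -(e / 2) := hz'
    have h1 : e / 2 ≤ |(ze (5 / e * i) z).re| := by
      rw [abs_of_neg (by linarith)]; linarith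
    have h2 : e / 2 ≤ |(ze (5 / e * j) z).re| := by
      rw [abs_of_neg (by linarith)]; linarith
    exact far' he i j z h1 h2 hij
  · intro i j
    rw [Set.disjoint_left]
    intro z hz hz'
    have hz1 : e / 2 ≤ (ze (5 / e * i) z).re := hz
    have hz2 : (ze (5 / e * j) z).re ≤ -(e / 2) := hz'
    by_cases hij : i = j
    · subst hij
      linarith
    · have h1 : e / 2 ≤ |(ze (5 / e * i) z).re| := le_trans hz1 (le_abs_self _)
      have h2 : e / 2 ≤ |(ze (5 / e * j) z).re| := by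
        rw [abs_of_neg (by linarith)]; linarith
      exact far' he i j z h1 h2 hij
  · rintro n _ ⟨z, hz, rfl⟩
    have hz1 : ¬ ((ze (5 / e * n) z).re ≤ -(e / 2)) := hz
    show e / 2 ≤ (ze (5 / e * n) (PE e (5 / e * n : ℝ) • z)).re
    rw [ze_PE, Complex.add_re, Complex.ofReal_re]
    linarith
  · rintro n _ ⟨z, hz, rfl⟩
    have hz1 : ¬ (e / 2 ≤ (ze (5 / e * n) z).re) := hz
    show (ze (5 / e * n) ((PE e (5 / e * n : ℝ))⁻¹ • z)).re ≤ -(e / 2)
    rw [PE_inv, ze_PE, Complex.add_re, Complex.ofReal_re]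
    linarith

/-- the homomorphism -/
noncomputable def psi {G R : Type*} [CommRing R] (e : R) (y : G → R) : FreeGroup G →* SL(2, R) :=
  FreeGroup.lift (fun g => PE e (y g))

theorem psi_map {G R S : Type*} [CommRing R] [CommRing S] (f : R →+* S) (e : R) (y : G → R)
    (g : FreeGroup G) :
    Matrix.SpecialLinearGroup.map f (psi e y g) = psi (f e) (fun i => f (y i)) g := by
  have h : (Matrix.SpecialLinearGroup.map f).comp (psi e y) = psi (f e) (fun i => f (y i)) := by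
    apply FreeGroup.ext_hom
    intro i
    simp [psi, map_PE]
  rw [← h]
  rfl

theorem psi_injective {G : Type} (y : G → ℝ) (hy : AlgebraicIndependent ℚ y) (r : G → ℚ) (e : ℚ)
    (he : 0 < e) : Function.Injective (psi (e : ℝ) (fun i => y i + r i)) := by
  rw [injective_iff_map_eq_one]
  intro g hg
  by_contra hne
  obtain ⟨n, hn⟩ := exists_map_ne g hne
  -- over the polynomial ring
  have hmap : ∀ t : G → ℝ, (fun i => (MvPolynomial.aeval t : MvPolynomial G ℚ →ₐ[ℚ] ℝ).toRingHom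
        (MvPolynomial.X i + MvPolynomial.C (r i) : MvPolynomial G ℚ)) = fun i => t i + r i := by
    intro t
    funext i
    simp
  have hmape : ∀ t : G → ℝ, (MvPolynomial.aeval t : MvPolynomial G ℚ →ₐ[ℚ] ℝ).toRingHom
        (MvPolynomial.C e : MvPolynomial G ℚ) = (e : ℝ) := by
    intro t
    simp
  have h1 : psi (MvPolynomial.C e) (fun i => (MvPolynomial.X i + MvPolynomial.C (r i) :
      MvPolynomial G ℚ)) g = 1 := by
    have h2 := psi_map (MvPolynomial.aeval y : MvPolynomial G ℚ →ₐ[ℚ] ℝ).toRingHom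
      (MvPolynomial.C e) (fun i => (MvPolynomial.X i + MvPolynomial.C (r i) : MvPolynomial G ℚ)) g
    rw [hmap, hmape, hg] at h2
    have hinj : Function.Injective (MvPolynomial.aeval y : MvPolynomial G ℚ →ₐ[ℚ] ℝ) := hy
    apply Subtype.ext
    apply Matrix.ext
    intro i j
    have h4 := congrArg (fun M : SL(2, ℝ) => M.1 i j) h2
    have h5 : (MvPolynomial.aeval y : MvPolynomial G ℚ →ₐ[ℚ] ℝ)
        ((psi (MvPolynomial.C e) (fun i => (MvPolynomial.X i + MvPolynomial.C (r i) :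
          MvPolynomial G ℚ)) g).1 i j) = (1 : Matrix (Fin 2) (Fin 2) ℝ) i j := h4
    apply hinj
    rw [h5]
    have h6 : ((1 : SL(2, MvPolynomial G ℚ)) : Matrix (Fin 2) (Fin 2) (MvPolynomial G ℚ)) i j =
      (1 : Matrix (Fin 2) (Fin 2) (MvPolynomial G ℚ)) i j := rfl
    rw [h6, Matrix.one_apply, Matrix.one_apply]
    split_ifs
    · simp
    · simp
  -- specialize
  have h7 := psi_map (MvPolynomial.aeval (fun i => (5 / e * n i - r i : ℝ)) :
      MvPolynomial G ℚ →ₐ[ℚ] ℝ).toRingHom (MvPolynomial.C e)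
      (fun i => (MvPolynomial.X i + MvPolynomial.C (r i) : MvPolynomial G ℚ)) g
  rw [hmap, hmape, h1, map_one] at h7
  simp only [sub_add_cancel] at h7
  have h9 : psi (e : ℝ) (fun i => (5 / e * n i : ℝ)) g =
      psi (e : ℝ) (fun m : ℕ => (5 / e * m : ℝ)) (FreeGroup.map n g) := by
    have : psi (e : ℝ) (fun i => (5 / e * n i : ℝ)) =
        (psi (e : ℝ) (fun m : ℕ => (5 / e * m : ℝ))).comp (FreeGroup.map n) := by
      apply FreeGroup.ext_hom
      intro i
      simp [psi]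
    rw [this]
    rfl
  rw [h9] at h7
  apply hn
  apply ping_pong' (e := (e : ℝ)) (by exact_mod_cast he)
  rw [map_one]
  exact h7.symm

end Pool.Agent.X186.FP
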