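import Pool.Agent.X186.HC.Comb

/-!
# Matchings along generators of a free group acting freely
-/

set_option autoImplicit false

open FreeGroup

namespace Pool.Agent.X186.FP

open Pool.Agent.X186.HC

variable {G : Type*} {X : Type*} [MulAction (FreeGroup G) X]

theorem inj_exists (V : Set X) (hfree : ∀ x ∈ V, ∀ g : FreeGroup G, g • x = x → g = 1)
    (Lt : G × Bool → Prop)
    (h : ∀ x ∈ V, ∃ c c' : G × Bool, c ≠ c' ∧ Lt c ∧ Lt c' ∧ FreeGroup.mk [c] • x ∈ V ∧
      FreeGroup.mk [c'] • x ∈ V) :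
    ∃ f : V → V, Function.Injective f ∧ ∀ x, ∃ c, Lt c ∧ (f x : X) = FreeGroup.mk [c] • (x : X) := by
  classical
  let r : X → X := fun x => Quotient.out (Quotient.mk (MulAction.orbitRel (FreeGroup G) X) x)
  have hr : ∀ x, ∃ g : FreeGroup G, g • r x = x := by
    intro x
    have h1 : (MulAction.orbitRel (FreeGroup G) X).r (r x) x :=
      Quotient.mk_out (s := MulAction.orbitRel (FreeGroup G) X) x
    have h2 : r x ∈ MulAction.orbit (FreeGroup G) x := h1
    rw [MulAction.mem_orbit_symm] at h2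
    exact h2
  have hr2 : ∀ (g : FreeGroup G) x, r (g • x) = r x := by
    intro g x
    have : Quotient.mk (MulAction.orbitRel (FreeGroup G) X) (g • x) =
        Quotient.mk (MulAction.orbitRel (FreeGroup G) X) x := by
      apply Quotient.sound
      show (g • x) ∈ MulAction.orbit (FreeGroup G) x
      exact ⟨g, rfl⟩
    show Quotient.out _ = Quotient.out _
    rw [this]
  choose gg hgg using hr
  have hc : ∀ x : V, ∃ c : G × Bool, Lt c ∧ FreeGroup.mk [c] • (x : X) ∈ V ∧
      IsReduced (c :: (gg x).toWord) := by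
    intro x
    obtain ⟨c, c', hne, h1, h2, h3, h4⟩ := h x x.2
    have hw : IsReduced (gg x).toWord := isReduced_toWord
    by_cases hd : li c ∈ (gg x).toWord.head?
    · refine ⟨c', h2, h4, ?_⟩
      have : IsReduced ([c'] ++ (gg x).toWord) := by
        refine red_append.mpr ⟨by simp, hw, ?_⟩
        intro u hu v hv
        simp at hu
        subst hu
        rw [Option.mem_def] at hd hv
        rw [hd] at hv
        simp at hv
        rw [← hv]
        intro h5
        exact hne (li_inj h5)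
      simpa using this
    · refine ⟨c, h1, h3, ?_⟩
      have : IsReduced ([c] ++ (gg x).toWord) := by
        refine red_append.mpr ⟨by simp, hw, ?_⟩
        intro u hu v hv
        simp at hu
        subst hu
        rintro rfl
        exact hd hv
      simpa using this
  choose cc h1 h2 h3 using hc
  refine ⟨fun x => ⟨FreeGroup.mk [cc x] • (x : X), h2 x⟩, ?_, fun x => ⟨cc x, h1 x, rfl⟩⟩
  intro x y hxy
  have hxy' : FreeGroup.mk [cc x] • (x : X) = FreeGroup.mk [cc y] • (y : X) :=
    congrArg Subtype.val hxy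
  have hrr : r x = r y := by
    rw [← hr2 (FreeGroup.mk [cc x]) x, hxy', hr2]
  have hw : ∀ z : V, FreeGroup.mk (cc z :: (gg z).toWord) • r z = FreeGroup.mk [cc z] • (z : X) := by
    intro z
    rw [mk_cons_smul, mk_toWord, hgg]
  have h4 : FreeGroup.mk (cc x :: (gg x).toWord) • r x =
      FreeGroup.mk (cc y :: (gg y).toWord) • r x := by
    rw [hw x, hxy', ← hw y, hrr]
  have h5 : FreeGroup.mk (cc x :: (gg x).toWord) = FreeGroup.mk (cc y :: (gg y).toWord) := by
    have h6 : ((FreeGroup.mk (cc y :: (gg y).toWord))⁻¹ *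
        FreeGroup.mk (cc x :: (gg x).toWord)) • r x = r x := by
      rw [mul_smul, h4, inv_smul_smul]
    set k := (FreeGroup.mk (cc y :: (gg y).toWord))⁻¹ * FreeGroup.mk (cc x :: (gg x).toWord)
    have h7 : (gg x * k * (gg x)⁻¹) • (x : X) = x := by
      have h8 : (gg x)⁻¹ • (x : X) = r x := by
        rw [inv_smul_eq_iff, hgg]
      rw [mul_smul, mul_smul, h8, h6, hgg]
    have h9 := hfree x x.2 _ h7
    have h10 : k = 1 := conj_eq_one_iff.mp h9
    exact (inv_mul_eq_one.mp h10).symm
  have h6 := red_ext (h3 x) (h3 y) h5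
  rw [List.cons.injEq] at h6
  have h7 : gg x = gg y := by
    have := congrArg FreeGroup.mk h6.2
    rwa [mk_toWord, mk_toWord] at this
  apply Subtype.ext
  rw [← hgg x, ← hgg y, h7, hrr]

theorem perm_exists (V : Set X) (hfree : ∀ x ∈ V, ∀ g : FreeGroup G, g • x = x → g = 1)
    (J : G → Prop)
    (h1 : ∀ x ∈ V, ∃ c c' : G, c ≠ c' ∧ J c ∧ J c' ∧ FreeGroup.of c • x ∈ V ∧
      FreeGroup.of c' • x ∈ V)
    (h2 : ∀ x ∈ V, ∃ c c' : G, c ≠ c' ∧ J c ∧ J c' ∧ (FreeGroup.of c)⁻¹ • x ∈ V ∧
      (FreeGroup.of c')⁻¹ • x ∈ V) :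
    ∃ f : Equiv.Perm V, ∀ x, ∃ c, J c ∧ (f x : X) = FreeGroup.of c • (x : X) := by
  obtain ⟨f, hf, hf'⟩ := inj_exists V hfree (fun c => J c.1 ∧ c.2 = true) (by
    intro x hx
    obtain ⟨c, c', a1, a2, a3, a4, a5⟩ := h1 x hx
    exact ⟨(c, true), (c', true), fun h => a1 (congrArg Prod.fst h), ⟨a2, rfl⟩, ⟨a3, rfl⟩, a4, a5⟩)
  obtain ⟨g, hg, hg'⟩ := inj_exists V hfree (fun c => J c.1 ∧ c.2 = false) (by
    intro x hx
    obtain ⟨c, c', a1, a2, a3, a4, a5⟩ := h2 x hx
    exact ⟨(c, false), (c', false), fun h => a1 (congrArg Prod.fst h), ⟨a2, rfl⟩, ⟨a3, rfl⟩, a4,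
      a5⟩)
  obtain ⟨k, hk, hk'⟩ := Function.Embedding.schroeder_bernstein_of_rel hf hg
    (fun x y => ∃ c, J c ∧ (y : X) = FreeGroup.of c • (x : X)) (by
      intro x
      obtain ⟨⟨c, b⟩, ⟨hc, hb⟩, hx⟩ := hf' x
      simp only at hb hc
      subst hb
      exact ⟨c, hc, hx⟩) (by
      intro x
      obtain ⟨⟨c, b⟩, ⟨hc, hb⟩, hx⟩ := hg' x
      simp only at hb hc
      subst hb
      refine ⟨c, hc, ?_⟩
      rw [hx]
      have : FreeGroup.mk [(c, false)] = (FreeGroup.of c)⁻¹ := rfl
      rw [this, smul_inv_smul])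
  exact ⟨Equiv.ofBijective k hk, hk'⟩

/-- freeness -/
theorem perm_free {K : Type*} (V : Set X) (hfree : ∀ x ∈ V, ∀ g : FreeGroup G, g • x = x → g = 1)
    (cl : G → K) (P : K → Equiv.Perm V)
    (hP : ∀ k x, ∃ c, cl c = k ∧ ((P k) x : X) = FreeGroup.of c • (x : X)) (w : FreeGroup K)
    (hw : w ≠ 1) (x : V) : (FreeGroup.lift P w) x ≠ x := by
  classical
  have key : ∀ L : List (K × Bool), ∀ x : V, ∃ M : List (G × Bool),
      M.map (fun c => (cl c.1, c.2)) = L ∧
      ((FreeGroup.lift P (FreeGroup.mk L)) x : X) = FreeGroup.mk M • (x : X) := by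
    intro L
    induction L with
    | nil =>
      intro x
      refine ⟨[], rfl, ?_⟩
      rw [mk_nil_smul]
      have : FreeGroup.mk ([] : List (K × Bool)) = 1 := rfl
      rw [this, _root_.map_one]
      rfl
    | cons l L ih =>
      intro x
      obtain ⟨M, hM, hx⟩ := ih x
      set y := (FreeGroup.lift P (FreeGroup.mk L)) x with hy
      have h1 : FreeGroup.mk (l :: L) = FreeGroup.mk [l] * FreeGroup.mk L := by
        rw [mul_mk]; rfl
      have h2 : (FreeGroup.lift P (FreeGroup.mk (l :: L))) x =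
          (FreeGroup.lift P (FreeGroup.mk [l])) y := by
        rw [h1, _root_.map_mul, Equiv.Perm.mul_apply]
      rw [h2]
      obtain ⟨k, b⟩ := l
      cases b with
      | true =>
        obtain ⟨c, hc, hc'⟩ := hP k y
        refine ⟨(c, true) :: M, ?_, ?_⟩
        · simp [hM, hc]
        · have h3 : (FreeGroup.lift P (FreeGroup.mk [(k, true)])) = P k := by
            have : FreeGroup.mk [(k, true)] = FreeGroup.of k := rfl
            rw [this, FreeGroup.lift_apply_of]
          rw [h3, hc', hx, mk_cons_smul]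
          rfl
      | false =>
        obtain ⟨c, hc, hc'⟩ := hP k ((P k)⁻¹ y)
        refine ⟨(c, false) :: M, ?_, ?_⟩
        · simp [hM, hc]
        · have h3 : (FreeGroup.lift P (FreeGroup.mk [(k, false)])) = (P k)⁻¹ := by
            have : FreeGroup.mk [(k, false)] = (FreeGroup.of k)⁻¹ := rfl
            rw [this, _root_.map_inv, FreeGroup.lift_apply_of]
          have h5 : (P k) ((P k)⁻¹ y) = y := (P k).apply_symm_apply y
          rw [h5] at hc'
          rw [h3, mk_cons_smul, ← hx]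
          have h4 : FreeGroup.mk [(c, false)] = (FreeGroup.of c)⁻¹ := rfl
          rw [h4, hc', inv_smul_smul]
  obtain ⟨M, hM, hx⟩ := key w.toWord x
  rw [mk_toWord] at hx
  intro hfix
  rw [hfix] at hx
  have h1 := hfree x x.2 _ hx.symm
  have hred : IsReduced w.toWord := isReduced_toWord
  rw [← hM] at hred
  have hredM : IsReduced M := by
    unfold FreeGroup.IsReduced at hred ⊢
    rw [List.isChain_map] at hred
    refine hred.imp ?_
    intro a b hab h
    exact hab (by rw [h])
  have hM0 : M = [] := red_ext hredM IsReduced.nil (by rw [h1]; rfl)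
  rw [hM0] at hM
  apply hw
  rw [List.map_nil] at hM
  rw [← toWord_eq_nil_iff]
  exact hM.symm

end Pool.Agent.X186.FP
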