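import Pool.Agent.X186.FP.Geo
import Pool.Agent.X186.FP.Match

/-!
# The free group action
-/

set_option autoImplicit false

open Matrix UpperHalfPlane
open scoped MatrixGroups Pointwise

namespace Pool.Agent.X186.FP

open Pool.Agent.X186.HC

theorem fixed_eqs {A : SL(2, ℝ)} {z : ℍ} (hA : A • z = z) :
    A.1 1 1 - A.1 0 0 = -2 * z.re * A.1 1 0 ∧
      A.1 0 1 = -(A.1 1 0 * (z.re ^ 2 + z.im ^ 2)) := by
  have h1 := coe_specialLinearGroup_apply A z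
  rw [hA] at h1
  have hd : ((A.1 1 0 : ℂ) * z + (A.1 1 1 : ℂ)) ≠ 0 := by
    intro h0
    have h2 : (z : ℂ) = 0 := by
      rw [h1]
      have : (((algebraMap ℝ ℝ) (A.1 1 0) : ℂ) * z + ((algebraMap ℝ ℝ) (A.1 1 1) : ℂ)) = 0 := h0
      rw [this, div_zero]
    have := congrArg Complex.im h2
    simp at this
    exact z.im_pos.ne' this
  have h2 : (z : ℂ) * ((A.1 1 0 : ℂ) * z + (A.1 1 1 : ℂ)) =
      (A.1 0 0 : ℂ) * z + (A.1 0 1 : ℂ) := by
    have h3 : (z : ℂ) = ((A.1 0 0 : ℂ) * z + (A.1 0 1 : ℂ)) /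
        ((A.1 1 0 : ℂ) * z + (A.1 1 1 : ℂ)) := h1
    rw [eq_div_iff hd] at h3
    exact h3
  have hre := congrArg Complex.re h2
  have him := congrArg Complex.im h2
  simp only [Complex.mul_re, Complex.mul_im, Complex.add_re, Complex.add_im, Complex.ofReal_re,
    Complex.ofReal_im, zero_mul, sub_zero, add_zero] at hre him
  have e3 : (z : ℂ).re = z.re := rfl
  have e4 : (z : ℂ).im = z.im := rfl
  rw [e3, e4] at hre him
  have hy : z.im ≠ 0 := z.im_pos.ne'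
  have e1 : A.1 1 1 - A.1 0 0 = -2 * z.re * A.1 1 0 := by
    apply mul_right_cancel₀ hy
    linear_combination him
  refine ⟨e1, ?_⟩
  linear_combination -hre + z.re * e1

theorem sq_one_of_two_fixed {A : SL(2, ℝ)} {z z' : ℍ} (hz : A • z = z) (hz' : A • z' = z')
    (hne : z ≠ z') : A * A = 1 := by
  obtain ⟨a1, a2⟩ := fixed_eqs hz
  obtain ⟨b1, b2⟩ := fixed_eqs hz'
  have hc : A.1 1 0 = 0 := by
    by_contra hc
    apply hne
    have h1 : z.re = z'.re := by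
      apply mul_right_cancel₀ hc
      linear_combination (a1 - b1) / 2
    have h2 : z.im ^ 2 = z'.im ^ 2 := by
      apply mul_left_cancel₀ hc
      rw [h1] at a2
      linear_combination a2 - b2
    have h3 : z.im = z'.im := (pow_left_inj₀ z.im_pos.le z'.im_pos.le two_ne_zero).mp h2
    exact UpperHalfPlane.ext (Complex.ext h1 h3)
  rw [hc] at a1 a2
  have h01 : A.1 0 1 = 0 := by linear_combination a2
  have h11 : A.1 1 1 = A.1 0 0 := by linear_combination a1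
  have hdet := A.2
  rw [Matrix.det_fin_two, h01, h11, hc] at hdet
  have h00 : A.1 0 0 * A.1 0 0 = 1 := by linear_combination hdet
  apply Subtype.ext
  rw [Matrix.SpecialLinearGroup.coe_mul]
  ext i j
  rw [Matrix.mul_apply, Fin.sum_univ_two]
  fin_cases i <;> fin_cases j
  · show A.1 0 0 * A.1 0 0 + A.1 0 1 * A.1 1 0 = 1
    rw [h01, h00]; ring
  · show A.1 0 0 * A.1 0 1 + A.1 0 1 * A.1 1 1 = 0
    rw [h01]; ring
  · show A.1 1 0 * A.1 0 0 + A.1 1 1 * A.1 1 0 = 0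
    rw [hc]; ring
  · show A.1 1 0 * A.1 0 1 + A.1 1 1 * A.1 1 1 = 1
    rw [hc, h11, h00]; ring

theorem fwd (z : ℍ) (hz : z ∈ RX) : ∃ k : Fin 4, ∀ x : ℝ, |x - cen k| ≤ 1 / 100 →
    PE (1 / 200) x • z ∈ RX := by
  have he : |(1 / 200 : ℝ)| ≤ 1 / 200 := by norm_num [abs_le]
  by_cases h1 : z.re < 0 <;> by_cases h2 : z.im < 1
  · refine ⟨0, fun x hx => ?_⟩
    obtain ⟨k1, k2, k3⟩ := signs hz he 0 hx
    simp only [Matrix.cons_val_zero] at k2 k3
    exact step hz he k1 1 1 (Or.inl ⟨rfl, h1⟩) (Or.inl ⟨rfl, h2⟩) (by linarith) (by linarith)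
  · refine ⟨1, fun x hx => ?_⟩
    obtain ⟨k1, k2, k3⟩ := signs hz he 1 hx
    simp only [Matrix.cons_val_one, Matrix.cons_val_zero] at k2 k3
    exact step hz he k1 1 (-1) (Or.inl ⟨rfl, h1⟩) (Or.inr ⟨rfl, not_lt.mp h2⟩) (by linarith)
      (by linarith)
  · refine ⟨2, fun x hx => ?_⟩
    obtain ⟨k1, k2, k3⟩ := signs hz he 2 hx
    simp only [Matrix.cons_val] at k2 k3
    exact step hz he k1 (-1) 1 (Or.inr ⟨rfl, not_lt.mp h1⟩) (Or.inl ⟨rfl, h2⟩) (by linarith)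
      (by linarith)
  · refine ⟨3, fun x hx => ?_⟩
    obtain ⟨k1, k2, k3⟩ := signs hz he 3 hx
    simp only [Matrix.cons_val] at k2 k3
    exact step hz he k1 (-1) (-1) (Or.inr ⟨rfl, not_lt.mp h1⟩) (Or.inr ⟨rfl, not_lt.mp h2⟩)
      (by linarith) (by linarith)

theorem bwd (z : ℍ) (hz : z ∈ RX) : ∃ k : Fin 4, ∀ x : ℝ, |x - cen k| ≤ 1 / 100 →
    (PE (1 / 200) x)⁻¹ • z ∈ RX := by
  have he : |(-(1 / 200) : ℝ)| ≤ 1 / 200 := by norm_num [abs_le]
  by_cases h1 : z.re < 0 <;> by_cases h2 : z.im < 1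
  · refine ⟨3, fun x hx => ?_⟩
    obtain ⟨k1, k2, k3⟩ := signs hz he 3 hx
    simp only [Matrix.cons_val] at k2 k3
    rw [PE_inv]
    exact step hz he k1 1 1 (Or.inl ⟨rfl, h1⟩) (Or.inl ⟨rfl, h2⟩) (by linarith) (by linarith)
  · refine ⟨2, fun x hx => ?_⟩
    obtain ⟨k1, k2, k3⟩ := signs hz he 2 hx
    simp only [Matrix.cons_val] at k2 k3
    rw [PE_inv]
    exact step hz he k1 1 (-1) (Or.inl ⟨rfl, h1⟩) (Or.inr ⟨rfl, not_lt.mp h2⟩) (by linarith)
      (by linarith)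
  · refine ⟨1, fun x hx => ?_⟩
    obtain ⟨k1, k2, k3⟩ := signs hz he 1 hx
    simp only [Matrix.cons_val_one, Matrix.cons_val_zero] at k2 k3
    rw [PE_inv]
    exact step hz he k1 (-1) 1 (Or.inr ⟨rfl, not_lt.mp h1⟩) (Or.inl ⟨rfl, h2⟩) (by linarith)
      (by linarith)
  · refine ⟨0, fun x hx => ?_⟩
    obtain ⟨k1, k2, k3⟩ := signs hz he 0 hx
    simp only [Matrix.cons_val_zero] at k2 k3
    rw [PE_inv]
    exact step hz he k1 (-1) (-1) (Or.inr ⟨rfl, not_lt.mp h1⟩) (Or.inr ⟨rfl, not_lt.mp h2⟩)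
      (by linarith) (by linarith)

/-- **The free action off a countable set.** -/
theorem exists_perms : ∃ (D : Set ℍ) (x : Fin 2 × Fin 4 × Bool → ℝ)
    (P : Fin 2 → Equiv.Perm {z : ℍ | z ∈ RX ∧ z ∉ D}), D.Countable ∧
    (∀ k z, ∃ j, ((P k) z : ℍ) = PE (1 / 200) (x j) • (z : ℍ)) ∧
    ∀ w : FreeGroup (Fin 2), w ≠ 1 → ∀ z, (FreeGroup.lift P w) z ≠ z := by
  obtain ⟨y, hy⟩ := exists_algInd (Fin 2 × Fin 4 × Bool)
    (Cardinal.mk_le_aleph0.trans Cardinal.aleph0_le_continuum)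
  have hr : ∀ j : Fin 2 × Fin 4 × Bool, ∃ r : ℚ, |y j + r - cen j.2.1| ≤ 1 / 100 := by
    intro j
    obtain ⟨r, h1, h2⟩ := exists_rat_btwn (show cen j.2.1 - y j - 1 / 100 < cen j.2.1 - y j + 1 / 100
      by linarith)
    exact ⟨r, abs_le.mpr ⟨by linarith, by linarith⟩⟩
  choose r hr using hr
  set x : Fin 2 × Fin 4 × Bool → ℝ := fun j => y j + r j with hx
  have he : ((1 / 200 : ℚ) : ℝ) = 1 / 200 := by norm_num
  have hinj : Function.Injective (psi (1 / 200 : ℝ) x) := by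
    have := psi_injective y hy r (1 / 200) (by norm_num)
    rwa [he] at this
  let _ : MulAction (FreeGroup (Fin 2 × Fin 4 × Bool)) ℍ := MulAction.compHom ℍ (psi (1 / 200 : ℝ) x)
  have hsm : ∀ (g : FreeGroup (Fin 2 × Fin 4 × Bool)) (z : ℍ), g • z = psi (1 / 200 : ℝ) x g • z :=
    fun _ _ => rfl
  have hof : ∀ j (z : ℍ), (FreeGroup.of j : FreeGroup (Fin 2 × Fin 4 × Bool)) • z =
      PE (1 / 200) (x j) • z := by
    intro j z
    rw [hsm, psi, FreeGroup.lift_apply_of]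
  have hofi : ∀ j (z : ℍ), (FreeGroup.of j : FreeGroup (Fin 2 × Fin 4 × Bool))⁻¹ • z =
      (PE (1 / 200) (x j))⁻¹ • z := by
    intro j z
    rw [hsm, map_inv, psi, FreeGroup.lift_apply_of]
  let D : Set ℍ := {z | ∃ g : FreeGroup (Fin 2 × Fin 4 × Bool), g ≠ 1 ∧ g • z = z}
  have hD : D.Countable := by
    have h1 : D = ⋃ g : {g : FreeGroup (Fin 2 × Fin 4 × Bool) // g ≠ 1}, {z : ℍ | g.1 • z = z} := by
      ext z
      simp only [Set.mem_iUnion]
      constructor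
      · rintro ⟨g, hg, hz⟩
        exact ⟨⟨g, hg⟩, hz⟩
      · rintro ⟨g, hz⟩
        exact ⟨g.1, g.2, hz⟩
    rw [h1]
    apply Set.countable_iUnion
    intro g
    apply Set.Subsingleton.countable
    intro z hz z' hz'
    by_contra hne
    have h2 := sq_one_of_two_fixed (A := psi (1 / 200 : ℝ) x g.1) hz hz' hne
    rw [← map_mul] at h2
    have h3 : g.1 * g.1 = 1 := hinj (by rw [h2, map_one])
    have h4 : g.1 ^ 2 = 1 := by rw [pow_two, h3]
    exact g.2 ((pow_eq_one_iff_left two_ne_zero).mp h4)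
  have hDinv : ∀ (g : FreeGroup (Fin 2 × Fin 4 × Bool)) (z : ℍ), z ∉ D → g • z ∉ D := by
    rintro g z hz ⟨k, hk, hk'⟩
    apply hz
    refine ⟨g⁻¹ * k * g, ?_, ?_⟩
    · intro h
      apply hk
      have : g⁻¹ * k * (g⁻¹)⁻¹ = 1 := by rwa [inv_inv]
      exact conj_eq_one_iff.mp this
    · rw [mul_smul, mul_smul, hk', inv_smul_smul]
  have hfree : ∀ z ∈ {z : ℍ | z ∈ RX ∧ z ∉ D}, ∀ g : FreeGroup (Fin 2 × Fin 4 × Bool), g • z = z →
      g = 1 := by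
    rintro z ⟨_, hz⟩ g hg
    by_contra hne
    exact hz ⟨g, hne, hg⟩
  have hP : ∀ k : Fin 2, ∃ f : Equiv.Perm {z : ℍ | z ∈ RX ∧ z ∉ D}, ∀ z, ∃ c, c.1 = k ∧
      (f z : ℍ) = (FreeGroup.of c : FreeGroup (Fin 2 × Fin 4 × Bool)) • (z : ℍ) := by
    intro k
    apply perm_exists _ hfree (fun c => c.1 = k)
    · rintro z ⟨hz, hz'⟩
      obtain ⟨t, ht⟩ := fwd z hz
      refine ⟨(k, t, false), (k, t, true), by simp, rfl, rfl, ⟨?_, hDinv _ _ hz'⟩,
        ⟨?_, hDinv _ _ hz'⟩⟩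
      · rw [hof]; exact ht _ (hr _)
      · rw [hof]; exact ht _ (hr _)
    · rintro z ⟨hz, hz'⟩
      obtain ⟨t, ht⟩ := bwd z hz
      refine ⟨(k, t, false), (k, t, true), by simp, rfl, rfl, ⟨?_, hDinv _ _ hz'⟩,
        ⟨?_, hDinv _ _ hz'⟩⟩
      · rw [hofi]; exact ht _ (hr _)
      · rw [hofi]; exact ht _ (hr _)
  choose P hP using hP
  refine ⟨D, x, P, hD, ?_, ?_⟩
  · intro k z
    obtain ⟨c, _, hc⟩ := hP k z
    exact ⟨c, by rw [hc, hof]⟩
  · intro w hw z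
    exact perm_free _ hfree Prod.fst P hP w hw z

end Pool.Agent.X186.FP
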